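import Pool.Agent.Lib.MixedOrient.Main

/-!
# Orientations of mixed graphs preserving two opposite distances: polynomial time
-/

set_option autoImplicit false

namespace Pool.Agent.Results.MP_bc7fec_lc.PolyTimeDecision

open Pool.Agent.MixedOrient

/-- There is a function on mixed graphs with non-negative rational lengths and two marked vertices
`s`, `t` which is computed by a Turing machine in polynomial time and which takes the value `true`
exactly if some orientation preserves both the distance from `s` to `t` and the distance from `t`
to `s`. -/
theorem result : ∃ f : Inst → Bool,
    Nonempty (Turing.TM2ComputableInPolyTime encodeInst Computability.encodeBool f) ∧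
    ∀ G : Inst, f G = true ↔ ∃ σ : ℕ → Bool,
      dist (G.orient σ) G.s G.t = dist G.full G.s G.t ∧
      dist (G.orient σ) G.t G.s = dist G.full G.t G.s :=
  main_theorem

end Pool.Agent.Results.MP_bc7fec_lc.PolyTimeDecision
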